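import Pool.Agent.H7.HD.Targets12
import Pool.Agent.H1.HD9.Y5

/-!
# RF3: reflection of the relations (MP_e37c09_lc)
-/

open Ordinal Cardinal Order Set
open scoped ZFSet

universe u

namespace Pool.Agent.H69.HDB.RF3

open _root_.HD
open Pool.Agent.H3.HD (exists_bound)
open Pool.Agent.H1.HD9.Y5 (od_V hod_iV exists_bd)

/-- RF3. -/
theorem X (hY4 : T_Y4.{u}) : T_RF3.{u} := by
  classical
  intro K hK hK0 hVF
  obtain ⟨C0, E, hC0, hE1, hE2, hE3⟩ := hVF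
  obtain ⟨C1, hC1, hC1'⟩ := hY4 K hK hK0 E
  have hcof : K.ord.cof = K := hK.cof_ord
  have hω : ℵ₀ < K.ord.cof := by rw [hcof]; exact hK0
  have hlim : IsSuccLimit K.ord := Cardinal.isSuccLimit_ord hK.aleph0_le
  have hpos : 0 < K.ord := hlim.bot_lt
  -- the ranks of the small elements
  have h0 : ∀ z, ∃ δ < K.ord, E z ∈ V_ K.ord → (E z).rank = δ := by
    intro z
    by_cases h : E z ∈ V_ K.ord
    · exact ⟨(E z).rank, ZFSet.mem_vonNeumann.1 h, fun _ => rfl⟩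
    · exact ⟨0, hpos, fun h' => absurd h' h⟩
  have h1 : ∀ z y, ∃ δ < K.ord, E z ∉ V_ K.ord → y < K.ord →
      ∃ w ∈ E z, y < w.rank ∧ w.rank = δ := by
    intro z y
    by_cases h : E z ∉ V_ K.ord ∧ y < K.ord
    · obtain ⟨w, hw, hyw⟩ : ∃ w ∈ E z, y < w.rank := by
        by_contra hcon
        push Not at hcon
        apply h.1
        rw [ZFSet.mem_vonNeumann]
        refine lt_of_le_of_lt ?_ (hlim.succ_lt h.2)
        rw [ZFSet.rank_le_iff]
        intro w hw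
        exact lt_succ_of_le (hcon w hw)
      exact ⟨w.rank, ZFSet.mem_vonNeumann.1 ((hE1 z).2 hw), fun _ _ => ⟨w, hw, hyw, rfl⟩⟩
    · exact ⟨0, hpos, fun h2 h3 => absurd ⟨h2, h3⟩ h⟩
  have h2 : ∀ z z', ∃ δ < K.ord, E z ≠ E z' → ∃ w : ZFSet.{u}, w.rank = δ ∧
      ¬ (w ∈ E z ↔ w ∈ E z') := by
    intro z z'
    by_cases h : E z = E z'
    · exact ⟨0, hpos, fun h' => absurd h h'⟩
    · obtain ⟨w, hw⟩ : ∃ w, ¬ (w ∈ E z ↔ w ∈ E z') := by
        by_contra hcon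
        push Not at hcon
        exact h (ZFSet.ext fun w => hcon w)
      refine ⟨w.rank, ?_, fun _ => ⟨w, rfl, hw⟩⟩
      by_cases hz : w ∈ E z
      · exact ZFSet.mem_vonNeumann.1 ((hE1 z).2 hz)
      · have hz' : w ∈ E z' := by
          by_contra hz'
          exact hw ⟨fun h => absurd h hz, fun h => absurd h hz'⟩
        exact ZFSet.mem_vonNeumann.1 ((hE1 z').2 hz')
  choose g0 hg0 hg0' using h0
  choose g1 hg1 hg1' using h1
  choose g2 hg2 hg2' using h2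
  obtain ⟨G, hG, hG'⟩ := exists_bd hK
    (fun a b => max (max (g0 a) (g1 a b)) (g2 a b))
    (fun a b => max_lt (max_lt (hg0 a) (hg1 a b)) (hg2 a b))
  refine ⟨(C0 ∩ C1) ∩ {x | 0 < x ∧ ∀ y < x, G y < x}, E, All.ci K.ord _ _ hω
    (All.ci K.ord _ _ hω hC0 hC1) (All.ve K hK hK0 G hG), hE1, hE2, ?_⟩
  rintro ξ ⟨⟨hξ0, hξ1⟩, hξp, hξ2⟩ hξ
  have hf : ∀ a < ξ, ∀ b < ξ, max (max (g0 a) (g1 a b)) (g2 a b) < ξ := by
    intro a ha b hb
    exact lt_of_le_of_lt (hG' (max a b) ((max_lt ha hb).trans hξ) a (le_max_left _ _) b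
      (le_max_right _ _)) (hξ2 _ (max_lt ha hb))
  have hf0 : ∀ a < ξ, g0 a < ξ := fun a ha =>
    lt_of_le_of_lt ((le_max_left _ _).trans (le_max_left _ _)) (hf a ha a ha)
  have hf1 : ∀ a < ξ, ∀ b < ξ, g1 a b < ξ := fun a ha b hb =>
    lt_of_le_of_lt ((le_max_right _ _).trans (le_max_left _ _)) (hf a ha b hb)
  have hf2 : ∀ a < ξ, ∀ b < ξ, g2 a b < ξ := fun a ha b hb =>
    lt_of_le_of_lt (le_max_right _ _) (hf a ha b hb)
  -- the traces determine the sets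
  have ha : ∀ a < ξ, ∀ b < ξ, E a ∩ V_ ξ = E b ∩ V_ ξ → E a = E b := by
    intro a ha b hb h
    by_contra hne
    obtain ⟨w, hw, hw'⟩ := hg2' a b hne
    have hwV : w ∈ V_ ξ := by
      rw [ZFSet.mem_vonNeumann, hw]
      exact hf2 a ha b hb
    apply hw'
    constructor
    · intro h'
      exact (ZFSet.mem_inter.1 (h ▸ ZFSet.mem_inter.2 ⟨h', hwV⟩)).1
    · intro h'
      exact (ZFSet.mem_inter.1 (h.symm ▸ ZFSet.mem_inter.2 ⟨h', hwV⟩)).1
  -- small sets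
  have hb : ∀ a < ξ, E a ∈ V_ K.ord → E a ∈ V_ ξ ∧ E a ∩ V_ ξ = E a := by
    intro a ha h
    have hr : E a ∈ V_ ξ := by
      rw [ZFSet.mem_vonNeumann, hg0' a h]
      exact hf0 a ha
    refine ⟨hr, ?_⟩
    ext w
    rw [ZFSet.mem_inter]
    refine ⟨fun h => h.1, fun h => ⟨h, ?_⟩⟩
    rw [ZFSet.mem_vonNeumann]
    exact (ZFSet.rank_lt_of_mem h).trans (ZFSet.mem_vonNeumann.1 hr)
  have hc : ∀ a < ξ, E a ∩ V_ ξ ∈ V_ ξ → E a ∈ V_ K.ord := by
    intro a ha h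
    by_contra hcon
    have hr := ZFSet.mem_vonNeumann.1 h
    obtain ⟨w, hw, hyw, hwr⟩ := hg1' a _ hcon (hr.trans hξ)
    have hwV : w ∈ V_ ξ := by
      rw [ZFSet.mem_vonNeumann, hwr]
      exact hf1 a ha _ hr
    exact absurd (ZFSet.rank_lt_of_mem (ZFSet.mem_inter.2 ⟨hw, hwV⟩)) (not_lt.2 hyw.le)
  choose! z hz using hE3 ξ hξ0 hξ
  -- the embedding
  have hmem : ∀ x y, VH ξ x → VH ξ y → (x ∈ y ↔ E (z x) ∈ E (z y)) := by
    intro x y hx hy
    obtain ⟨hx1, hx2⟩ := hz x hx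
    obtain ⟨hy1, hy2⟩ := hz y hy
    constructor
    · intro h
      have hxV : x ∈ V_ ξ := hy.2 h
      have h3 := hc (z x) hx1 (by rw [← hx2]; exact hxV)
      have h4 := (hb (z x) hx1 h3).2
      rw [← hx2] at h4
      rw [← h4]
      rw [hy2] at h
      exact (ZFSet.mem_inter.1 h).1
    · intro h
      have h3 : E (z x) ∈ V_ K.ord := (hE1 (z y)).2 h
      obtain ⟨h5, h4⟩ := hb (z x) hx1 h3
      rw [← hx2] at h4
      rw [hy2, h4]
      exact ZFSet.mem_inter.2 ⟨h, h5⟩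
  have heq : ∀ x y, VH ξ x → VH ξ y → (x = y ↔ E (z x) = E (z y)) := by
    intro x y hx hy
    constructor
    · intro h
      rw [h]
    · intro h
      rw [(hz x hx).2, (hz y hy).2, h]
  have hsat : ∀ (φ : Fml) (v : ℕ → ZFSet.{u}), (∀ n, VH ξ (v n)) →
      (Sat (VH ξ) φ v ↔ Sat (fun x => ∃ ζ < ξ, x = E ζ) φ ((fun x => E (z x)) ∘ v)) := by
    intro φ
    induction φ with
    | mem i j => intro v hv; exact hmem _ _ (hv i) (hv j)
    | eq i j => intro v hv; exact heq _ _ (hv i) (hv j)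
    | neg φ ih => intro v hv; exact not_congr (ih v hv)
    | and φ ψ ih1 ih2 => intro v hv; exact and_congr (ih1 v hv) (ih2 v hv)
    | ex φ ih =>
      intro v hv
      have hcc : ∀ x, (fun x => E (z x)) ∘ cons x v = cons (E (z x)) ((fun x => E (z x)) ∘ v) := by
        intro x
        funext n
        rcases n with _ | n <;> rfl
      have hcv : ∀ x, VH ξ x → ∀ n, VH ξ (cons x v n) := by
        intro x hx n
        rcases n with _ | n
        · exact hx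
        · exact hv n
      show (∃ x, VH ξ x ∧ Sat (VH ξ) φ (cons x v)) ↔ (∃ x, (∃ ζ < ξ, x = E ζ) ∧
        Sat (fun x => ∃ ζ < ξ, x = E ζ) φ (cons x ((fun x => E (z x)) ∘ v)))
      constructor
      · rintro ⟨x, hx, h⟩
        refine ⟨E (z x), ⟨z x, (hz x hx).1, rfl⟩, ?_⟩
        rw [← hcc x]
        exact (ih _ (hcv x hx)).1 h
      · rintro ⟨w, ⟨ζ, hζ, rfl⟩, h⟩
        have hx : VH ξ (E ζ ∩ V_ ξ) :=
          ⟨hod_iV (hE1 ζ).1 ξ, fun y hy => (ZFSet.mem_inter.1 hy).2⟩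
        refine ⟨E ζ ∩ V_ ξ, hx, (ih _ (hcv _ hx)).2 ?_⟩
        rw [hcc, ha _ (hz _ hx).1 ζ hζ (hz _ hx).2.symm]
        exact h
  have hVK : (fun x => ∃ ζ < K.ord, x = E ζ) = VH K.ord := by
    funext x
    apply propext
    constructor
    · rintro ⟨ζ, -, rfl⟩
      exact hE1 ζ
    · exact hE2 x
  refine ⟨fun x hx => ⟨z x, hz x hx⟩, ha, ?_⟩
  intro φ w hw
  have hv : ∀ n, VH ξ (E (w n) ∩ V_ ξ) := fun n =>
    ⟨hod_iV (hE1 _).1 ξ, fun y hy => (ZFSet.mem_inter.1 hy).2⟩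
  have h6 : (fun x => E (z x)) ∘ (fun n => E (w n) ∩ V_ ξ) = fun n => E (w n) := by
    funext n
    exact ha _ (hz _ (hv n)).1 _ (hw n) (hz _ (hv n)).2.symm
  have h7 := hsat φ _ hv
  rw [h6] at h7
  have h5 := hC1' ξ hξ1 hξ φ (fun n => E (w n)) fun n => ⟨w n, hw n, rfl⟩
  rw [hVK] at h5
  exact h7.trans h5

end Pool.Agent.H69.HDB.RF3
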